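import Pool.Agent.H37.UM.Stmts

set_option autoImplicit false

namespace Pool.Agent.H37.UM

open PowerSeries Finset

namespace GEN

/-- add one part -/
def addPart (m c : ℕ) (hc : 0 < c) (p : m.Partition) : (m + c).Partition where
  parts := c ::ₘ p.parts
  parts_pos := by
    intro i hi
    rw [Multiset.mem_cons] at hi
    rcases hi with hi | hi
    · rw [hi]; exact hc
    · exact p.parts_pos hi
  parts_sum := by
    rw [Multiset.sum_cons, p.parts_sum, add_comm]

/-- remove one part -/
def erPart (m c : ℕ) (p : (m + c).Partition) (hc : c ∈ p.parts) : m.Partition where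
  parts := p.parts.erase c
  parts_pos := by
    intro i hi
    exact p.parts_pos (Multiset.mem_of_mem_erase hi)
  parts_sum := by
    have h1 := Multiset.cons_erase hc
    have h2 := p.parts_sum
    rw [← h1, Multiset.sum_cons] at h2
    omega

theorem addPart_erPart (m c : ℕ) (hc0 : 0 < c) (p : (m + c).Partition) (hc : c ∈ p.parts) :
    addPart m c hc0 (erPart m c p hc) = p := by
  apply Nat.Partition.ext
  exact Multiset.cons_erase hc

theorem addPart_inj (m c : ℕ) (hc0 : 0 < c) (p p' : m.Partition)
    (h : addPart m c hc0 p = addPart m c hc0 p') : p = p' := by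
  apply Nat.Partition.ext
  have h1 := congrArg Nat.Partition.parts h
  exact (Multiset.cons_inj_right c).mp h1

theorem part_le {n j : ℕ} (p : n.Partition) (hj : j ∈ p.parts) : j ≤ n := by
  have := Multiset.single_le_sum (fun x _ => Nat.zero_le x) j hj
  rwa [p.parts_sum] at this

/-- split by the presence of the part `c` -/
theorem split (a b c n : ℕ) (hc : 1 ≤ c) (hac : a ≤ c) (hcb : c ≤ b) :
    hr a b n = ∑ p ∈ (univ : Finset n.Partition).filter
        (fun p => (∀ j ∈ p.parts, a ≤ j ∧ j ≤ b) ∧ c ∉ p.parts), (p.parts.map g).prod +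
      if c ≤ n then g c * hr a b (n - c) else 0 := by
  classical
  unfold hr
  rw [← sum_filter_not_add_sum_filter ((univ : Finset n.Partition).filter
    (fun p => ∀ j ∈ p.parts, a ≤ j ∧ j ≤ b)) (fun p => c ∈ p.parts), filter_filter, filter_filter]
  congr 1
  split_ifs with hcn
  · obtain ⟨m, rfl⟩ : ∃ m, n = m + c := ⟨n - c, by omega⟩
    rw [Nat.add_sub_cancel, mul_sum]
    symm
    refine sum_bij (fun p _ => addPart m c (by omega) p) ?_ ?_ ?_ ?_
    · intro p hp
      rw [mem_filter] at hp ⊢
      refine ⟨mem_univ _, ?_, Multiset.mem_cons_self c p.parts⟩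
      intro j hj
      have hj' : j ∈ c ::ₘ p.parts := hj
      rw [Multiset.mem_cons] at hj'
      rcases hj' with hj' | hj'
      · rw [hj']; exact ⟨hac, hcb⟩
      · exact hp.2 j hj'
    · intro p _ p' _ h
      exact addPart_inj m c _ p p' h
    · intro p hp
      rw [mem_filter] at hp
      refine ⟨erPart m c p hp.2.2, ?_, addPart_erPart m c _ p hp.2.2⟩
      rw [mem_filter]
      refine ⟨mem_univ _, fun j hj => ?_⟩
      exact hp.2.1 j (Multiset.mem_of_mem_erase hj)
    · intro p _
      show g c * (p.parts.map g).prod = ((c ::ₘ p.parts).map g).prod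
      rw [Multiset.map_cons, Multiset.prod_cons]
  · apply sum_eq_zero
    intro p hp
    rw [mem_filter] at hp
    exact absurd (part_le p hp.2.2) hcn

theorem zero_parts (p : Nat.Partition 0) : p.parts = 0 := by
  rw [Multiset.eq_zero_iff_forall_notMem]
  intro j hj
  have h1 := part_le p hj
  have h2 := p.parts_pos hj
  omega

end GEN

open GEN in
theorem GEN_thm : GENStmt := by
  classical
  refine ⟨?_, ?_, ?_, ?_, ?_, ?_⟩
  · intro a b
    unfold hr
    rw [filter_true_of_mem (fun p _ => by
      intro j hj
      rw [zero_parts p] at hj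
      exact absurd hj (Multiset.notMem_zero j))]
    have h1 : ∀ p ∈ (univ : Finset (Nat.Partition 0)), (p.parts.map g).prod = 1 := by
      intro p _
      rw [zero_parts p, Multiset.map_zero, Multiset.prod_zero]
    rw [sum_congr rfl h1, sum_const, card_univ, Fintype.card_unique, one_smul]
  · intro a b n hba hn
    unfold hr
    apply sum_eq_zero
    intro p hp
    rw [mem_filter] at hp
    exfalso
    have h1 : p.parts ≠ 0 := by
      intro h
      have := p.parts_sum
      rw [h, Multiset.sum_zero] at this
      omega
    obtain ⟨j, hj⟩ := Multiset.exists_mem_of_ne_zero h1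
    have := hp.2 j hj
    omega
  · intro a b n ha hab
    rw [split a (b + 1) (b + 1) n (by omega) hab le_rfl]
    congr 1
    unfold hr
    apply sum_congr _ (fun _ _ => rfl)
    ext p
    simp only [mem_filter, mem_univ, true_and]
    constructor
    · rintro ⟨h1, h2⟩ j hj
      have h3 := h1 j hj
      refine ⟨h3.1, ?_⟩
      have : j ≠ b + 1 := fun h => h2 (h ▸ hj)
      omega
    · intro h1
      refine ⟨fun j hj => ?_, fun hj => ?_⟩
      · have := h1 j hj; omega
      · have := h1 _ hj; omega
  · intro a b n ha hab
    rw [split a b a n ha le_rfl hab]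
    congr 1
    unfold hr
    apply sum_congr _ (fun _ _ => rfl)
    ext p
    simp only [mem_filter, mem_univ, true_and]
    constructor
    · rintro ⟨h1, h2⟩ j hj
      have h3 := h1 j hj
      have : j ≠ a := fun h => h2 (h ▸ hj)
      omega
    · intro h1
      refine ⟨fun j hj => ?_, fun hj => ?_⟩
      · have := h1 j hj; omega
      · have := h1 _ hj; omega
  · intro n b hnb
    unfold hr h
    rw [filter_true_of_mem]
    intro p _ j hj
    have h1 := part_le p hj
    have h2 := p.parts_pos hj
    omega
  · intro n b hnb
    unfold hr h2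
    apply sum_congr _ (fun _ _ => rfl)
    ext p
    simp only [mem_filter, mem_univ, true_and]
    constructor
    · intro h1 hj
      have := h1 1 hj
      omega
    · intro h1 j hj
      have h2 := part_le p hj
      have h3 := p.parts_pos hj
      have : j ≠ 1 := fun h => h1 (h ▸ hj)
      omega

end Pool.Agent.H37.UM
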