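import Pool.Agent.H15.UM.R3

set_option autoImplicit false

namespace Pool.Agent.H37.UM

namespace R2

open PowerSeries Finset

/-- the substitution `x = - y` -/
noncomputable def phi : Polynomial ℤ →ₐ[ℤ] ℤ⟦X⟧ := Polynomial.aeval (-X : ℤ⟦X⟧)

theorem phi_coeff (f : Polynomial ℤ) (k : ℕ) : coeff k (phi f) = (-1) ^ k * f.coeff k := by
  induction f using Polynomial.induction_on' with
  | add p q hp hq =>
    rw [map_add, map_add, hp, hq, Polynomial.coeff_add]
    ring
  | monomial n a =>
    unfold phi
    rw [Polynomial.aeval_monomial, neg_pow, Polynomial.coeff_monomial]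
    have h1 : (algebraMap ℤ ℤ⟦X⟧) a * ((-1) ^ n * X ^ n) = PowerSeries.C (a * (-1) ^ n) * X ^ n := by
      rw [map_mul, map_pow, map_neg, map_one]
      simp only [eq_intCast]
      ring
    rw [h1, PowerSeries.coeff_C_mul, PowerSeries.coeff_X_pow]
    by_cases h2 : k = n
    · subst h2
      simp [mul_comm]
    · rw [if_neg h2, if_neg (fun h => h2 h.symm)]
      simp

theorem phi_w (i : ℕ) : phi (1 + Polynomial.X ^ i) = w i := by
  unfold phi w
  simp

theorem w_mul_g (i : ℕ) (hi : 1 ≤ i) : w i * g i = 1 := by
  unfold g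
  apply PowerSeries.mul_invOfUnit
  unfold w
  have : i ≠ 0 := by omega
  simp [this]

theorem prod_w_g (s : Multiset ℕ) (hs : ∀ i ∈ s, 1 ≤ i) : (s.map w).prod * (s.map g).prod = 1 := by
  induction s using Multiset.induction_on with
  | empty => simp
  | cons i s ih =>
    rw [Multiset.map_cons, Multiset.map_cons, Multiset.prod_cons, Multiset.prod_cons]
    have h1 := ih (fun j hj => hs j (Multiset.mem_cons_of_mem hj))
    have h2 := w_mul_g i (hs i (Multiset.mem_cons_self i s))
    calc w i * (s.map w).prod * (g i * (s.map g).prod)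
        = (w i * g i) * ((s.map w).prod * (s.map g).prod) := by ring
      _ = 1 := by rw [h1, h2, one_mul]

theorem phi_parts (s : Multiset ℕ) :
    phi (s.map fun i => (1 + Polynomial.X ^ i : Polynomial ℤ)).prod = (s.map w).prod := by
  rw [map_multiset_prod, Multiset.map_map]
  congr 1
  apply Multiset.map_congr rfl
  intro i _
  exact phi_w i

theorem phi_den (n : ℕ) :
    phi (∏ i ∈ Icc 1 n, (1 + Polynomial.X ^ i : Polynomial ℤ) ^ cc n i) = den n := by
  unfold den
  rw [map_prod]
  refine prod_congr rfl fun i _ => ?_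
  rw [map_pow, phi_w]

end R2

open R2 R3 in
theorem R2_thm (h1 : R1Stmt) : R2Stmt := by
  intro n f hn hf k
  obtain ⟨G, hG1, hG2, hG3, hG4⟩ := hf
  have hGG : G = GG n := by
    have h2 : G ∣ GG n := dvd_GG n G hG2
    have h3 : GG n ∣ G := hG3 _ (GG_dvd h1 n)
    exact Polynomial.eq_of_monic_of_associated hG1 (GG_monic n) (associated_of_dvd_dvd h2 h3)
  choose q hq using h1 n
  have hsum : f = ∑ p : n.Partition, q p := by
    have h4 : GG n * f = GG n * ∑ p : n.Partition, q p := by
      rw [← hGG, hG4, hGG, Finset.mul_sum]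
      exact Finset.sum_congr rfl fun p _ => hl_eq n p (q p) (hq p)
    exact mul_left_cancel₀ (GG_monic n).ne_zero h4
  have hP : P n = phi f := by
    unfold P h
    rw [hsum, map_sum, Finset.mul_sum]
    refine Finset.sum_congr rfl fun p _ => ?_
    have h5 := congrArg phi (hq p)
    rw [phi_den, map_mul, phi_parts] at h5
    have h6 := prod_w_g p.parts (fun i hi => p.parts_pos hi)
    calc den n * (p.parts.map g).prod
        = (p.parts.map w).prod * phi (q p) * (p.parts.map g).prod := by rw [h5]
      _ = ((p.parts.map w).prod * (p.parts.map g).prod) * phi (q p) := by ring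
      _ = phi (q p) := by rw [h6, one_mul]
  rw [hP, phi_coeff]

end Pool.Agent.H37.UM
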